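import Pool.Agent.Lib.MP_f3b2fd_co.KEP.C.Low
import Pool.Agent.Lib.MP_f3b2fd_co.KEP.A.St2
import Pool.Agent.Lib.MP_f3b2fd_co.KEP.A.Const

/-! Assembly of the parts A, B, C. -/

namespace Pool.Agent.Lib.MP_f3b2fd_co.KC

open MeasureTheory Set Real Metric Filter Topology
open scoped ENNReal

/-- the upper density of the union of the large balls. -/
noncomputable def sd (X : Set E3) (l : ℝ) : ℝ≥0∞ :=
  limsup (fun R : ℝ => volume (ball 0 R ∩ ⋃ x ∈ X, closedBall x (1 + l)) /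
    volume (ball (0 : E3) R)) atTop

/-- the final statement. -/
def FinS : Prop := ∃ l0 > 0, ∀ l : ℝ, 0 < l → l < l0 →
  (∀ X : Set E3, (X.PairwiseDisjoint fun x => ball x 1) →
    sd X l ≤ ENNReal.ofReal (π * (1 + 3 * l - 6 * l ^ 2 - 5 * l ^ 3) / √18)) ∧
  (∀ X : Set E3, X = {x | ∃ i j k : ℤ, Even (i + j + k) ∧ x = !₂[√2 * i, √2 * j, √2 * k]} →
    (X.PairwiseDisjoint fun x => ball x 1) ∧
    sd X l = ENNReal.ofReal (π * (1 + 3 * l - 6 * l ^ 2 - 5 * l ^ 3) / √18)) ∧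
  ∀ s : ℤ → ℤ, (∀ k, s (k + 1) - s k = 1 ∨ s (k + 1) - s k = -1) →
    ∀ X : Set E3, X = {x | ∃ i j k, x = bp s i j k} → (X.PairwiseDisjoint fun x => ball x 1) ∧
    sd X l = ENNReal.ofReal (π * (1 + 3 * l - 6 * l ^ 2 - 5 * l ^ 3) / √18)

theorem fin0 {hs δ s : ℝ} {f : ℝ → ℝ} (hδ : 0 < δ) (hs0 : 0 < s)
    (hA : ∀ V : Finset E3, KA.Pack V →
      8 * KA.m1 * V.card - 8 * KA.m2 * ∑ v ∈ V, ∑ w ∈ V.erase v, f (dist v w / 2) ≤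
        (volume (⋃ v ∈ V, ball v √2)).toReal)
    (hB : KEP.StB f hs δ) (hz : ∀ h, hs < h → f h = 0)
    (hsl : ∀ h, 1 ≤ h → h ≤ hs → s * (h - 1) ≤ 1 - f h) : FinS := by
  obtain ⟨l0, p0, p1, up⟩ := upper KA.hab KA.m2_pos hδ hs0 hA hB hz hsl
  refine ⟨l0, p0, fun l h0 h1 => ?_⟩
  rw [← val_eq]
  have bar : ∀ s : ℤ → ℤ, (∀ k, s (k + 1) - s k = 1 ∨ s (k + 1) - s k = -1) →
      ∀ X : Set E3, X = {x | ∃ i j k, x = bp s i j k} → (X.PairwiseDisjoint fun x => ball x 1) ∧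
      sd X l = ENNReal.ofReal (Wv l / √32) := fun s hs X hX => by
    obtain ⟨b1, b2⟩ := barlow hs hX
    exact ⟨b1, le_antisymm (up l h0 h1 X b1) (b2 l h0 (by linarith))⟩
  refine ⟨up l h0 h1, fun X hX => bar id (fun k => Or.inl (by simp)) X (hX.trans ?_), bar⟩
  ext x
  constructor
  · rintro ⟨i, j, k, ⟨m, hm⟩, rfl⟩
    refine ⟨i - m, -k, m, ?_⟩
    have hj : (j : ℝ) = m + m - i - k := by
      have : j = m + m - i - k := by omega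
      exact_mod_cast this
    ext a
    fin_cases a <;> simp [bp, hj] <;> ring
  · rintro ⟨i, j, k, rfl⟩
    refine ⟨i + k, -i + j + k, -j, ⟨k, by ring⟩, ?_⟩
    ext a
    fin_cases a <;> simp [bp] <;> ring

theorem fin2 (hA : KA.AS2) {hs δ s : ℝ} {f : ℝ → ℝ} {P : ℕ → ℝ → ℝ → ℝ} (hδ : 0 < δ) (hs0 : 0 < s)
    (f0 : ∀ h, 0 ≤ f h) (g2 : KA.G2p KA.m1 P) (g3 : KA.G3p KA.m1 P) (g4 : KA.G4p KA.m1 P)
    (cl : KA.CL KA.m2 f P) (hB : KEP.StB f hs δ) (hz : ∀ h, hs < h → f h = 0)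
    (hsl : ∀ h, 1 ≤ h → h ≤ hs → s * (h - 1) ≤ 1 - f h) : FinS :=
  fin0 hδ hs0 (hA _ _ f P KA.m1_pos.le KA.m2_pos.le KA.six_m1 f0 g2 g3 g4 cl) hB hz hsl

end Pool.Agent.Lib.MP_f3b2fd_co.KC
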