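import Pool.Agent.Lib.MP_f3b2fd_co.KEP.C.Up

/-! The soft density of close-packed stackings of triangular layers. -/

namespace Pool.Agent.Lib.MP_f3b2fd_co.KC

open MeasureTheory Set Real Metric Filter Topology
open scoped ENNReal

theorem lower {X P : Set E3} {l c : ℝ} (h0 : 0 < l) (h1 : l ≤ 1 / 10)
    (hX : ∀ x ∈ X, ∀ w ∈ X, x ≠ w → 2 ≤ dist x w)
    (h12 : ∀ x ∈ X, ∃ N : Finset E3, N.card ≤ 12 ∧
      ∀ w ∈ X, w ≠ x → w ∈ N ∨ 2 * (1 + l) < dist x w)
    (hP : volume P ≤ ENNReal.ofReal √32) (hc : ∀ y ∈ P, ‖y‖ ≤ c) (hcov : ∀ y, ∃ x ∈ X, y - x ∈ P) :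
    ENNReal.ofReal (Wv l / √32) ≤
      limsup (fun R : ℝ => volume (ball 0 R ∩ ⋃ x ∈ X, closedBall x (1 + l)) /
        volume (ball (0 : E3) R)) atTop := by
  classical
  have hX' : X.PairwiseDisjoint fun x => ball x 1 := fun x hx w hw h =>
    (disjoint_ball_ball_iff one_pos one_pos).2 (by linarith [hX x hx w hw h])
  choose! N n1 n2 using h12
  set D : E3 → Set E3 := fun x =>
    closedBall x (1 + l) ∩ ⋂ w ∈ (N x).filter (fun w => w ∈ X ∧ w ≠ x), {y | ‖y - x‖ < ‖y - w‖}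
    with hD
  have mD : ∀ x, MeasurableSet (D x) := fun x => measurableSet_closedBall.inter
    (Finset.measurableSet_biInter _ fun w _ => measurableSet_lt (by fun_prop) (by fun_prop))
  have lt : ∀ x ∈ X, ∀ w ∈ X, x ≠ w → ∀ y ∈ D x, y ∈ D w → ‖y - x‖ < ‖y - w‖ := by
    intro x hx w hw h y a b
    refine mem_iInter₂.1 a.2 w (Finset.mem_filter.2 ⟨(n2 x hx w hw h.symm).resolve_right ?_, hw, h.symm⟩)
    linarith [dist_triangle_left x w y, mem_closedBall.1 a.1, mem_closedBall.1 b.1]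
  have W0 : 0 < Wv l := Wv_pos h0 (by linarith)
  have vD : ∀ x ∈ X, ENNReal.ofReal (Wv l) ≤ volume (D x) := fun x hx => by
    set M := (N x).filter (fun w => w ∈ X ∧ w ≠ x) with hM
    have c0 := capV_nonneg (r := 1 + l) (h := 1) (by linarith) zero_le_one
    have s : closedBall (0 : E3) (1 + l) ⊆ (fun y => y + x) ⁻¹' D x ∪
        ⋃ w ∈ M, {y : E3 | ‖y‖ ≤ 1 + l ∧ ‖y - (w - x)‖ ≤ ‖y‖} := fun y hy => by
      by_cases e : ∀ w ∈ M, ‖y‖ < ‖y - (w - x)‖
      · refine Or.inl ⟨by simpa using hy, mem_iInter₂.2 fun w hw => ?_⟩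
        have := e w hw
        rwa [mem_ofPred_eq, add_sub_cancel_right, show y + x - w = y - (w - x) by abel]
      · push Not at e
        obtain ⟨w, hw, e⟩ := e
        exact Or.inr (mem_iUnion₂.2 ⟨w, hw, mem_closedBall_zero_iff.1 hy, e⟩)
    have t : volume (⋃ w ∈ M, {y : E3 | ‖y‖ ≤ 1 + l ∧ ‖y - (w - x)‖ ≤ ‖y‖}) ≤
        ENNReal.ofReal (12 * capV (1 + l) 1) := by
      refine (measure_biUnion_finset_le _ _).trans ((Finset.sum_le_card_nsmul _ _
        (ENNReal.ofReal (capV (1 + l) 1)) fun w hw => ?_).trans ?_)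
      · obtain ⟨-, a, b⟩ := Finset.mem_filter.1 hw
        rw [cap_closed _ (by linarith) _ (sub_ne_zero.2 b)]
        have := hX w a x hx b
        rw [dist_eq_norm] at this
        exact ENNReal.ofReal_le_ofReal (by linarith [(cap_diff (h := ‖w - x‖ / 2) h0 (by linarith)).1])
      · rw [nsmul_eq_mul, ← ENNReal.ofReal_natCast, ← ENNReal.ofReal_mul (Nat.cast_nonneg _)]
        refine ENNReal.ofReal_le_ofReal (mul_le_mul_of_nonneg_right ?_ c0)
        exact_mod_cast (Finset.card_filter_le _ _).trans (n1 x hx)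
    have u := (measure_mono s).trans ((measure_union_le _ _).trans (add_le_add_right t _))
    rw [measure_preimage_add_right, ball_real _ (by linarith)] at u
    rw [Wv_eq h0, ENNReal.ofReal_sub _ (by positivity)]
    exact tsub_le_iff_right.2 u
  have key : ∀ R : ℝ, ENNReal.ofReal (Wv l / √32) * volume (ball (0 : E3) (R + -(2 + c))) ≤
      volume (ball 0 R ∩ ⋃ x ∈ X, closedBall x (1 + l)) := fun R => by
    set V := (fin hX' (R - 2)).toFinset with hV
    have m : ∀ v, v ∈ V ↔ v ∈ X ∧ v ∈ ball (0 : E3) (R - 2) := fun v => by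
      rw [hV, Finite.mem_toFinset, mem_inter_iff]
    have a1 : volume (ball (0 : E3) (R + -(2 + c))) ≤ V.card * ENNReal.ofReal √32 := by
      have s : ball (0 : E3) (R + -(2 + c)) ⊆ ⋃ x ∈ V, (fun y => y + -x) ⁻¹' P := fun y hy => by
        obtain ⟨x, hx, e⟩ := hcov y
        refine mem_iUnion₂.2 ⟨x, (m x).2 ⟨hx, ?_⟩, by simpa [sub_eq_add_neg] using e⟩
        have := hc _ e
        have t := dist_triangle_left x 0 y
        rw [mem_ball] at hy ⊢
        rw [dist_eq_norm y x] at t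
        linarith
      refine (measure_mono s).trans ((measure_biUnion_finset_le _ _).trans ?_)
      rw [← nsmul_eq_mul]
      exact Finset.sum_le_card_nsmul _ _ _ fun x _ => (measure_preimage_add_right _ _ _).trans_le hP
    have a2 : V.card * ENNReal.ofReal (Wv l) ≤ volume (⋃ x ∈ V, D x) := by
      rw [measure_biUnion_finset (fun x hx w hw h => Set.disjoint_left.2 fun y a b => lt_asymm
        (lt x ((m x).1 hx).1 w ((m w).1 hw).1 h y a b)
        (lt w ((m w).1 hw).1 x ((m x).1 hx).1 h.symm y b a)) fun x _ => mD x, ← nsmul_eq_mul]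
      exact Finset.card_nsmul_le_sum _ _ _ fun x hx => vD x ((m x).1 hx).1
    refine (mul_le_mul_right a1 _).trans (le_trans (le_of_eq ?_) (a2.trans (measure_mono
      (iUnion₂_subset fun x hx y hy => ⟨?_, mem_iUnion₂.2 ⟨x, ((m x).1 hx).1, hy.1⟩⟩))))
    · rw [mul_left_comm, ← ENNReal.ofReal_mul (by positivity), div_mul_cancel₀ _ (by positivity)]
    · have := dist_triangle y x 0
      rw [mem_ball]
      linarith [mem_closedBall.1 hy.1, mem_ball.1 ((m x).1 hx).2]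
  have lim := ENNReal.Tendsto.const_mul (a := ENNReal.ofReal (Wv l / √32)) (ratio_tendsto (-(2 + c)))
    (Or.inl one_ne_zero)
  rw [mul_one] at lim
  refine le_trans lim.limsup_eq.ge (limsup_le_limsup ?_)
  filter_upwards [eventually_gt_atTop 0, eventually_ge_atTop (2 + c)] with R hR hR'
  refine (ENNReal.le_div_iff_mul_le (Or.inl (measure_ball_pos _ _ hR).ne')
    (Or.inl measure_ball_lt_top.ne)).2 (le_trans (le_of_eq ?_) (key R))
  rw [ball_ratio R _ hR (by linarith), mul_assoc]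

/-- the points of a stacking. -/
noncomputable def bp (s : ℤ → ℤ) (i j k : ℤ) : E3 :=
  !₂[√2 / 3 * (3 * i + s k + 2 * k), √2 / 3 * (-3 * i + 3 * j + s k + 2 * k),
    √2 / 3 * (-3 * j - 2 * s k + 2 * k)]

theorem bp_dist (s : ℤ → ℤ) (i j k i' j' k' : ℤ) : dist (bp s i j k) (bp s i' j' k') ^ 2 =
    2 / 9 * (((3 * (i' - i) + (s k' - s k)) ^ 2 + (-3 * (i' - i) + 3 * (j' - j) + (s k' - s k)) ^ 2 +
      (3 * (j' - j) + 2 * (s k' - s k)) ^ 2 + 12 * (k' - k) ^ 2 : ℤ) : ℝ) := by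
  have h : √2 ^ 2 = 2 := Real.sq_sqrt (by norm_num)
  rw [EuclideanSpace.dist_eq, Real.sq_sqrt (by positivity), Fin.sum_univ_three]
  simp only [bp, Real.dist_eq, sq_abs, Matrix.cons_val]
  push_cast
  linear_combination (((3 * (i' - i) + (s k' - s k)) ^ 2 +
    (-3 * (i' - i) + 3 * (j' - j) + (s k' - s k)) ^ 2 +
      (3 * (j' - j) + 2 * (s k' - s k)) ^ 2 + 12 * (k' - k) ^ 2 : ℝ) / 9) * h

theorem flat (i j : ℤ) (h : (3 * i) ^ 2 + (-3 * i + 3 * j) ^ 2 + (3 * j) ^ 2 < 36) :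
    (i = 0 ∧ j = 0) ∨ ((3 * i) ^ 2 + (-3 * i + 3 * j) ^ 2 + (3 * j) ^ 2 = 18 ∧
      (i, j) ∈ ({(1, 0), (-1, 0), (0, 1), (0, -1), (1, 1), (-1, -1)} : Finset (ℤ × ℤ))) := by
  have a1 : i < 2 := by nlinarith [sq_nonneg (-3 * i + 3 * j), sq_nonneg (3 * j)]
  have a2 : -2 < i := by nlinarith [sq_nonneg (-3 * i + 3 * j), sq_nonneg (3 * j)]
  have a3 : j < 2 := by nlinarith [sq_nonneg (-3 * i + 3 * j), sq_nonneg (3 * i)]
  have a4 : -2 < j := by nlinarith [sq_nonneg (-3 * i + 3 * j), sq_nonneg (3 * i)]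
  interval_cases i <;> interval_cases j <;> simp at h ⊢

theorem step (i j e : ℤ) (he : e = 1 ∨ e = -1)
    (h : (3 * i + e) ^ 2 + (-3 * i + 3 * j + e) ^ 2 + (3 * j + 2 * e) ^ 2 < 24) :
    (3 * i + e) ^ 2 + (-3 * i + 3 * j + e) ^ 2 + (3 * j + 2 * e) ^ 2 = 6 ∧
      (i, j) ∈ ({(0, 0), (0, -e), (-e, -e)} : Finset (ℤ × ℤ)) := by
  have a1 : 3 * i + e < 5 := by nlinarith [sq_nonneg (-3 * i + 3 * j + e), sq_nonneg (3 * j + 2 * e)]
  have a2 : -5 < 3 * i + e := by nlinarith [sq_nonneg (-3 * i + 3 * j + e), sq_nonneg (3 * j + 2 * e)]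
  have a3 : 3 * j + 2 * e < 5 := by nlinarith [sq_nonneg (-3 * i + 3 * j + e), sq_nonneg (3 * i + e)]
  have a4 : -5 < 3 * j + 2 * e := by nlinarith [sq_nonneg (-3 * i + 3 * j + e), sq_nonneg (3 * i + e)]
  have b1 : i ≤ 1 := by omega
  have b2 : -1 ≤ i := by omega
  have b3 : j ≤ 2 := by omega
  have b4 : -2 ≤ j := by omega
  rcases he with rfl | rfl <;> interval_cases i <;> interval_cases j <;> simp at h ⊢

theorem near {s : ℤ → ℤ} (hs : ∀ k, s (k + 1) - s k = 1 ∨ s (k + 1) - s k = -1) (i j k : ℤ) :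
    ∃ N : Finset E3, N.card ≤ 12 ∧ ∀ i' j' k', bp s i' j' k' ≠ bp s i j k →
      (bp s i' j' k' ∈ N ∧ dist (bp s i j k) (bp s i' j' k') ^ 2 = 4) ∨
        8 ≤ dist (bp s i j k) (bp s i' j' k') ^ 2 := by
  classical
  set A : Finset (ℤ × ℤ) := {(1, 0), (-1, 0), (0, 1), (0, -1), (1, 1), (-1, -1)} with hA
  set B : ℤ → Finset (ℤ × ℤ) := fun e => {(0, 0), (0, -e), (-e, -e)} with hB
  refine ⟨(A.image fun p => bp s (i + p.1) (j + p.2) k) ∪
    ((B (s (k + 1) - s k)).image fun p => bp s (i + p.1) (j + p.2) (k + 1)) ∪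
    (B (s (k - 1) - s k)).image fun p => bp s (i + p.1) (j + p.2) (k - 1), ?_, fun i' j' k' hne => ?_⟩
  · refine (Finset.card_union_le _ _).trans ((add_le_add ((Finset.card_union_le _ _).trans
      (add_le_add Finset.card_image_le Finset.card_image_le)) Finset.card_image_le).trans ?_)
    have a : A.card = 6 := by decide
    have b : ∀ e, (B e).card ≤ 3 := fun e => Finset.card_le_three
    linarith [b (s (k + 1) - s k), b (s (k - 1) - s k)]
  rw [bp_dist]
  set Q : ℤ := (3 * (i' - i) + (s k' - s k)) ^ 2 + (-3 * (i' - i) + 3 * (j' - j) + (s k' - s k)) ^ 2 +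
      (3 * (j' - j) + 2 * (s k' - s k)) ^ 2 + 12 * (k' - k) ^ 2 with hQ
  by_cases h : 36 ≤ Q
  · have : (36 : ℝ) ≤ Q := by exact_mod_cast h
    exact Or.inr (by linarith)
  left
  have sq3 := add_nonneg (add_nonneg (sq_nonneg (3 * (i' - i) + (s k' - s k)))
    (sq_nonneg (-3 * (i' - i) + 3 * (j' - j) + (s k' - s k))))
    (sq_nonneg (3 * (j' - j) + 2 * (s k' - s k)))
  have a1 : k' - k < 2 := by nlinarith
  have a2 : -2 < k' - k := by nlinarith
  suffices t : Q = 18 ∧ _ from ⟨t.2, by rw [t.1]; norm_num⟩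
  simp only [Finset.mem_union, Finset.mem_image]
  rcases (by omega : k' = k ∨ k' = k + 1 ∨ k' = k - 1) with rfl | rfl | rfl
  · rcases flat (i' - i) (j' - j) (by simp only [sub_self] at hQ; linarith) with t | t
    · exact absurd (by rw [show i' = i by omega, show j' = j by omega]) hne
    · exact ⟨by simp only [sub_self] at hQ; linarith [t.1], Or.inl (Or.inl ⟨_, t.2, by simp⟩)⟩
  · have t := step (i' - i) (j' - j) _ (hs k) (by nlinarith)
    exact ⟨by nlinarith [t.1], Or.inl (Or.inr ⟨_, t.2, by simp⟩)⟩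
  · have e := hs (k - 1)
    rw [sub_add_cancel] at e
    have t := step (i' - i) (j' - j) (s (k - 1) - s k) (by omega) (by nlinarith)
    exact ⟨by nlinarith [t.1], Or.inr ⟨_, t.2, by simp⟩⟩

theorem cov (s : ℤ → ℤ) : ∃ (P : Set E3) (c : ℝ), volume P ≤ ENNReal.ofReal √32 ∧
    (∀ y ∈ P, ‖y‖ ≤ c) ∧ ∀ y, ∃ i j k, y - bp s i j k ∈ P := by
  have h2 : √2 ^ 2 = 2 := Real.sq_sqrt (by norm_num)
  have h0 : (0 : ℝ) < √2 := Real.sqrt_pos.2 (by norm_num)
  set v : Fin 3 → E3 := ![!₂[√2, -√2, 0], !₂[0, √2, -√2], !₂[2 * √2 / 3, 2 * √2 / 3, 2 * √2 / 3]]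
    with hv
  have hli : LinearIndependent ℝ v := by
    rw [Fintype.linearIndependent_iff]
    intro g hg
    have k0 := congrArg (fun x : E3 => x 0) hg
    have k1 := congrArg (fun x : E3 => x 1) hg
    have k2 := congrArg (fun x : E3 => x 2) hg
    simp [hv, Fin.sum_univ_three] at k0 k1 k2
    have z2 : g 2 = 0 := by
      have : g 2 * √2 = 0 := by linarith
      exact (mul_eq_zero.1 this).resolve_right h0.ne'
    rw [z2] at k0 k2
    intro i
    fin_cases i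
    · exact (mul_eq_zero.1 (by linarith : g 0 * √2 = 0)).resolve_right h0.ne'
    · exact (mul_eq_zero.1 (by linarith : g 1 * √2 = 0)).resolve_right h0.ne'
    · exact z2
  set c := basisOfLinearIndependentOfCardEqFinrank hli (by simp) with hc
  have cv : ∀ i, c i = v i := fun i => by rw [hc, coe_basisOfLinearIndependentOfCardEqFinrank]
  obtain ⟨r, hr⟩ := isBounded_iff_forall_norm_le.1 (ZSpan.fundamentalDomain_isBounded c)
  refine ⟨ZSpan.fundamentalDomain c, r, ?_, hr, fun y => ?_⟩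
  · rw [fund_vol]
    refine ENNReal.ofReal_le_ofReal (Real.le_sqrt_of_sq_le ?_)
    rw [sq_abs]
    simp only [cv, hv, Matrix.cons_val]
    have : √2 ^ 6 = 8 := by linear_combination (√2 ^ 4 + 2 * √2 ^ 2 + 4) * h2
    nlinarith
  set k := ⌊c.repr y 2⌋ with hk
  refine ⟨⌊c.repr y 0 - s k / 3⌋, ⌊c.repr y 1 - 2 * s k / 3⌋, k, ?_⟩
  set i := ⌊c.repr y 0 - s k / 3⌋ with hi
  set j := ⌊c.repr y 1 - 2 * s k / 3⌋ with hj
  have e : bp s i j k = ((i : ℝ) + s k / 3) • c 0 + ((j : ℝ) + 2 * s k / 3) • c 1 + (k : ℝ) • c 2 := by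
    ext a
    fin_cases a <;> simp [cv, hv, bp] <;> ring
  rw [ZSpan.mem_fundamentalDomain, e]
  intro a
  have f0 := Int.floor_le (c.repr y 0 - s k / 3)
  have f1 := Int.lt_floor_add_one (c.repr y 0 - s k / 3)
  have f2 := Int.floor_le (c.repr y 1 - 2 * s k / 3)
  have f3 := Int.lt_floor_add_one (c.repr y 1 - 2 * s k / 3)
  have f4 := Int.floor_le (c.repr y 2)
  have f5 := Int.lt_floor_add_one (c.repr y 2)
  fin_cases a <;> simp <;> constructor <;> linarith

theorem barlow {s : ℤ → ℤ} (hs : ∀ k, s (k + 1) - s k = 1 ∨ s (k + 1) - s k = -1) {X : Set E3}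
    (hX : X = {x | ∃ i j k, x = bp s i j k}) : (X.PairwiseDisjoint fun x => ball x 1) ∧
    ∀ l : ℝ, 0 < l → l ≤ 1 / 10 → ENNReal.ofReal (Wv l / √32) ≤
      limsup (fun R : ℝ => volume (ball 0 R ∩ ⋃ x ∈ X, closedBall x (1 + l)) /
        volume (ball (0 : E3) R)) atTop := by
  have h2 : ∀ x ∈ X, ∀ w ∈ X, x ≠ w → 2 ≤ dist x w := by
    rw [hX]
    rintro _ ⟨i, j, k, rfl⟩ _ ⟨i', j', k', rfl⟩ h
    obtain ⟨N, -, n⟩ := near hs i j k
    refine le_of_pow_le_pow_left₀ two_ne_zero dist_nonneg ?_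
    rcases n i' j' k' h.symm with t | t
    · linarith [t.2]
    · linarith
  refine ⟨fun x hx w hw h => (disjoint_ball_ball_iff one_pos one_pos).2
    (by linarith [h2 x hx w hw h]), fun l h0 h1 => ?_⟩
  obtain ⟨P, c, p1, p2, p3⟩ := cov s
  refine lower h0 h1 h2 ?_ p1 p2 fun y => ?_
  · rw [hX]
    rintro _ ⟨i, j, k, rfl⟩
    obtain ⟨N, n1, n⟩ := near hs i j k
    refine ⟨N, n1, ?_⟩
    rintro _ ⟨i', j', k', rfl⟩ h
    refine (n i' j' k' h).imp And.left fun t => lt_of_pow_lt_pow_left₀ 2 dist_nonneg ?_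
    nlinarith
  · obtain ⟨i, j, k, e⟩ := p3 y
    exact ⟨_, hX ▸ ⟨i, j, k, rfl⟩, e⟩

end Pool.Agent.Lib.MP_f3b2fd_co.KC
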