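import Pool.Agent.Lib.MP_f3b2fd_co.Main
import Pool.Agent.Lib.MP_f3b2fd_co.KEP.A.St
import Pool.Agent.Lib.MP_f3b2fd_co.KEP.B.St

/-! From the local inequalities to the soft density. -/

namespace Pool.Agent.Lib.MP_f3b2fd_co.KC

open MeasureTheory Set Real Metric Filter Topology
open scoped ENNReal

/-- the truncated Voronoi cell. -/
def vor (V : Finset E3) (r : ℝ) (v : E3) : Set E3 :=
  {x | ‖x - v‖ ≤ r ∧ ∀ w ∈ V, ‖x - v‖ ≤ ‖x - w‖}

theorem caps {V N : Finset E3} {v : E3} {r : ℝ} (hV : KA.Pack V) (hv : v ∈ V)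
    (hN : N ⊆ V.erase v) (hr0 : 0 ≤ r) (hr : r ^ 2 ≤ 4 / 3) :
    volume (vor V r v) + ∑ w ∈ N, ENNReal.ofReal (capV r (dist v w / 2)) ≤
      ENNReal.ofReal (r ^ 3 * (π * 4 / 3)) := by
  set C : E3 → Set E3 := fun w => {x : E3 | ‖x‖ ≤ r ∧ ‖x - (w - v)‖ < ‖x‖} with hC
  have hCm : ∀ w, MeasurableSet (C w) := fun w =>
    (measurableSet_le (by fun_prop) (by fun_prop) : MeasurableSet {x : E3 | ‖x‖ ≤ r}).inter
      (measurableSet_lt (by fun_prop) (by fun_prop) : MeasurableSet {x : E3 | ‖x - (w - v)‖ < ‖x‖})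
  have m : ∀ w ∈ N, w ∈ V ∧ w ≠ v := fun w hw =>
    ⟨Finset.mem_of_mem_erase (hN hw), Finset.ne_of_mem_erase (hN hw)⟩
  have n2 : ∀ w ∈ N, 2 ≤ ‖w - v‖ := fun w hw => dist_eq_norm w v ▸ hV w (m w hw).1 v hv (m w hw).2
  have hdis : (N : Set E3).PairwiseDisjoint C := by
    intro i hi j hj hij
    refine Set.disjoint_left.2 ?_
    rintro x ⟨hx, h1⟩ ⟨-, h2⟩
    refine three_points r hr x (i - v) (j - v) (n2 i hi) (n2 j hj) ?_ hx h1 h2
    rw [sub_sub_sub_cancel_right, ← dist_eq_norm]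
    exact hV i (m i hi).1 j (m j hj).1 hij
  have hsum : volume (⋃ w ∈ N, C w) = ∑ w ∈ N, ENNReal.ofReal (capV r (dist v w / 2)) := by
    rw [measure_biUnion_finset hdis fun w _ => hCm w]
    refine Finset.sum_congr rfl fun w hw => ?_
    rw [dist_comm, dist_eq_norm]
    exact cap_open r hr0 _ (sub_ne_zero.2 (m w hw).2)
  have hdj : Disjoint ((fun x => x + v) ⁻¹' vor V r v) (⋃ w ∈ N, C w) := by
    refine Set.disjoint_left.2 fun x hx hx' => ?_
    obtain ⟨w, hw, hi⟩ := mem_iUnion₂.1 hx'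
    have := hx.2 w (m w hw).1
    rw [add_sub_cancel_right, show x + v - w = x - (w - v) by abel] at this
    exact absurd this (not_le.2 hi.2)
  rw [← hsum, ← measure_preimage_add_right volume v (vor V r v),
    ← measure_union hdj (Finset.measurableSet_biUnion _ fun w _ => hCm w), ← ball_real r hr0]
  refine measure_mono ?_
  rintro x (hx | hx)
  · have := hx.1
    rw [add_sub_cancel_right] at this
    exact mem_closedBall_zero_iff.2 this
  · obtain ⟨w, -, hi⟩ := mem_iUnion₂.1 hx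
    exact mem_closedBall_zero_iff.2 hi.1

theorem loc {f : ℝ → ℝ} {hs δ s κ l : ℝ} (hB : KEP.StB f hs δ) (hz : ∀ h, hs < h → f h = 0)
    (hsl : ∀ h, 1 ≤ h → h ≤ hs → s * (h - 1) ≤ 1 - f h) (h0 : 0 < l) (h1 : l ≤ 1 / 10)
    (k1 : l ≤ κ) (k2 : 7 * l ≤ κ * s) (k3 : 12 * l ≤ κ * δ) {V : Finset E3} (hV : KA.Pack V)
    {v : E3} (hv : v ∈ V) : volume (vor V (1 + l) v) ≤
      ENNReal.ofReal (Wv l + κ * (12 - ∑ w ∈ V.erase v, f (dist v w / 2))) := by
  set N := (V.erase v).filter fun w => dist v w ≤ 2 * hs with hN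
  have hF : ∑ w ∈ V.erase v, f (dist v w / 2) = ∑ w ∈ N, f (dist v w / 2) :=
    (Finset.sum_subset (Finset.filter_subset _ _) fun w hw hw' => hz _ (by
      have : ¬ dist v w ≤ 2 * hs := fun h => hw' (Finset.mem_filter.2 ⟨hw, h⟩)
      linarith [not_le.1 this])).symm
  have m : ∀ w ∈ N, w ∈ V ∧ 2 ≤ dist v w ∧ dist v w ≤ 2 * hs := fun w hw => by
    obtain ⟨a, b⟩ := Finset.mem_filter.1 hw
    exact ⟨Finset.mem_of_mem_erase a,
      hV v hv w (Finset.mem_of_mem_erase a) (Finset.ne_of_mem_erase a).symm, b⟩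
  have hc := caps hV hv (Finset.filter_subset (fun w => dist v w ≤ 2 * hs) _) (r := 1 + l)
    (by linarith) (by nlinarith)
  have c0 : ∀ w ∈ N, 0 ≤ capV (1 + l) (dist v w / 2) := fun w _ =>
    capV_nonneg (by linarith) (by positivity)
  rw [← hN, ← ENNReal.ofReal_sum_of_nonneg c0] at hc
  have hc' := ENNReal.le_sub_of_add_le_right ENNReal.ofReal_ne_top hc
  rw [← ENNReal.ofReal_sub _ (Finset.sum_nonneg c0)] at hc'
  refine hc'.trans (ENNReal.ofReal_le_ofReal ?_)
  have c1 : capV (1 + l) 1 ≤ l := by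
    rw [cap_one h0]
    have : π * l * (3 + 2 * l) ≤ 3 := by nlinarith [pi_lt_four, pi_pos, mul_pos pi_pos h0]
    nlinarith
  have hκ : 0 ≤ κ := by linarith
  rw [hF, Wv_eq h0]
  by_cases hk : 13 ≤ N.card
  · have inj : InjOn (fun w => w - v) N := fun _ _ _ _ h => sub_left_injective h
    have := hB (N.image fun w => w - v) (fun u hu => by
      obtain ⟨w, hw, rfl⟩ := Finset.mem_image.1 hu
      rw [← dist_eq_norm, dist_comm]
      exact (m w hw).2) (fun u hu u' hu' hne => by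
      obtain ⟨w, hw, rfl⟩ := Finset.mem_image.1 hu
      obtain ⟨w', hw', rfl⟩ := Finset.mem_image.1 hu'
      rw [sub_sub_sub_cancel_right, ← dist_eq_norm]
      exact hV w (m w hw).1 w' (m w' hw').1 fun h => hne (by rw [h]))
      (by rwa [Finset.card_image_of_injOn inj])
    rw [Finset.sum_image inj] at this
    simp only [← dist_eq_norm, dist_comm _ v] at this
    nlinarith [Finset.sum_nonneg c0, mul_le_mul_of_nonneg_left this hκ]
  · have k12 : (N.card : ℝ) ≤ 12 := by exact_mod_cast (by omega : N.card ≤ 12)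
    have p : ∑ w ∈ N, (capV (1 + l) 1 - capV (1 + l) (dist v w / 2)) ≤
        ∑ w ∈ N, κ * (1 - f (dist v w / 2)) := Finset.sum_le_sum fun w hw => by
      obtain ⟨-, a, b⟩ := m w hw
      have d1 := (cap_diff (h := dist v w / 2) h0 (by linarith)).2
      have d2 := mul_le_mul_of_nonneg_left (hsl (dist v w / 2) (by linarith) (by linarith)) hκ
      have d3 : π * (2 * l + l ^ 2) ≤ κ * s := by nlinarith [pi_lt_d2, pi_pos, mul_pos pi_pos h0]
      nlinarith
    rw [Finset.sum_sub_distrib, ← Finset.mul_sum, Finset.sum_sub_distrib, Finset.sum_const,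
      Finset.sum_const, nsmul_eq_mul, nsmul_eq_mul] at p
    nlinarith

theorem fin {X : Set E3} (hX : X.PairwiseDisjoint fun x => ball x 1) (R : ℝ) :
    (X ∩ ball 0 R).Finite := by
  obtain ⟨t, ht, hc⟩ := Metric.totallyBounded_iff.1
    ((isCompact_closedBall (0 : E3) R).totallyBounded.subset ball_subset_closedBall) 1 one_pos
  choose! c h1 h2 using fun x (hx : x ∈ ball (0 : E3) R) => mem_iUnion₂.1 (hc hx)
  refine Finite.of_injOn (f := c) (fun x hx => h1 x hx.2) (fun x hx y hy h => ?_) ht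
  by_contra hne
  exact Set.disjoint_left.1 (hX hx.1 hy.1 hne) (mem_ball_comm.1 (h2 x hx.2))
    (h ▸ mem_ball_comm.1 (h2 y hy.2))

theorem upper {a b hs δ s : ℝ} {f : ℝ → ℝ} (hab : 8 * a - 96 * b = √32) (hb : 0 < b) (hδ : 0 < δ)
    (hs0 : 0 < s) (hA : ∀ V : Finset E3, KA.Pack V →
      8 * a * V.card - 8 * b * ∑ v ∈ V, ∑ w ∈ V.erase v, f (dist v w / 2) ≤
        (volume (⋃ v ∈ V, ball v √2)).toReal)
    (hB : KEP.StB f hs δ) (hz : ∀ h, hs < h → f h = 0)
    (hsl : ∀ h, 1 ≤ h → h ≤ hs → s * (h - 1) ≤ 1 - f h) :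
    ∃ l0 > 0, l0 ≤ 1 / 10 ∧ ∀ l, 0 < l → l < l0 → ∀ X : Set E3,
      (X.PairwiseDisjoint fun x => ball x 1) →
      limsup (fun R : ℝ => volume (ball 0 R ∩ ⋃ x ∈ X, closedBall x (1 + l)) /
        volume (ball (0 : E3) R)) atTop ≤ ENNReal.ofReal (Wv l / √32) := by
  refine ⟨min (1 / 10) (min b (min (b * s / 7) (b * δ / 12))), by positivity, min_le_left _ _,
    fun l h0 h1 X hX => ?_⟩
  simp only [lt_min_iff] at h1
  obtain ⟨h1, h2, h3, h4⟩ := h1
  have q0 : (0 : ℝ) < √32 := by positivity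
  have q1 : √32 ≤ 8 := Real.sqrt_le_iff.2 ⟨by norm_num, by norm_num⟩
  have hW : 1 ≤ Wv l := by
    have : 1 ≤ 1 + 3 * l - 6 * l ^ 2 - 5 * l ^ 3 := by nlinarith [mul_pos h0 h0]
    rw [Wv]
    nlinarith [pi_gt_three]
  set κ := 8 * b * (Wv l / √32) with hκ
  have k0 : b ≤ κ := by
    have : 1 / 8 ≤ Wv l / √32 := by
      rw [div_le_div_iff₀ (by norm_num) q0]
      linarith
    nlinarith
  have key : ∀ R > (0 : ℝ), volume (ball 0 R ∩ ⋃ x ∈ X, closedBall x (1 + l)) ≤
      ENNReal.ofReal (Wv l / √32) * volume (ball (0 : E3) (R + 4)) := fun R hR => by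
    set V := (fin hX (R + 2)).toFinset with hV
    have m : ∀ v, v ∈ V ↔ v ∈ X ∧ v ∈ ball (0 : E3) (R + 2) := fun v => by
      rw [hV, Finite.mem_toFinset, mem_inter_iff]
    have hP : KA.Pack V := fun v hv w hw h => by
      have := (disjoint_ball_ball_iff one_pos one_pos).1 (hX ((m v).1 hv).1 ((m w).1 hw).1 h)
      linarith
    have L := fun v hv => loc hB hz hsl h0 h1.le (κ := κ) (by linarith) (by nlinarith)
      (by nlinarith) hP (v := v) hv
    have s1 : ball 0 R ∩ ⋃ x ∈ X, closedBall x (1 + l) ⊆ ⋃ v ∈ V, vor V (1 + l) v := by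
      rintro y ⟨y1, y2⟩
      obtain ⟨x, hx, y3⟩ := mem_iUnion₂.1 y2
      have hxV : x ∈ V := (m x).2 ⟨hx, by
        have := dist_triangle_left x 0 y
        rw [mem_ball] at y1 ⊢
        linarith [mem_closedBall.1 y3]⟩
      obtain ⟨v, hv, hm⟩ := V.exists_min_image (fun v => ‖y - v‖) ⟨x, hxV⟩
      exact mem_iUnion₂.2 ⟨v, hv, (hm x hxV).trans (mem_closedBall_iff_norm.1 y3), hm⟩
    have s2 : (⋃ v ∈ V, ball v √2) ⊆ ball (0 : E3) (R + 4) := iUnion₂_subset fun v hv y hy => by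
      have := dist_triangle y v 0
      have q : √2 ≤ 2 := Real.sqrt_le_iff.2 ⟨by norm_num, by norm_num⟩
      rw [mem_ball] at hy ⊢
      linarith [mem_ball.1 ((m v).1 hv).2]
    have fin2 : volume (⋃ v ∈ V, ball v √2) ≠ ⊤ :=
      ne_top_of_le_ne_top measure_ball_lt_top.ne (measure_mono s2)
    have pos : ∀ v ∈ V, 0 ≤ Wv l + κ * (12 - ∑ w ∈ V.erase v, f (dist v w / 2)) := fun v hv => by
      by_contra hn
      have z := (L v hv).trans (ENNReal.ofReal_of_nonpos (not_le.1 hn).le).le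
      refine absurd ((measure_mono fun y hy => ?_).trans z)
        (not_le.2 (measure_ball_pos volume v one_pos))
      have y1 := mem_ball_iff_norm.1 hy
      refine ⟨by linarith, fun w hw => ?_⟩
      by_cases e : v = w
      · rw [e]
      · have := hP v hv w hw e
        have := dist_triangle_left v w y
        simp only [dist_eq_norm] at *
        linarith
    refine (measure_mono s1).trans ((measure_biUnion_finset_le _ _).trans
      ((Finset.sum_le_sum L).trans ?_))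
    rw [← ENNReal.ofReal_sum_of_nonneg pos]
    refine le_trans ?_ (mul_le_mul_right (measure_mono s2) _)
    rw [← ENNReal.ofReal_toReal fin2, ← ENNReal.ofReal_mul (by positivity)]
    refine ENNReal.ofReal_le_ofReal (le_trans (le_of_eq ?_)
      (mul_le_mul_of_nonneg_left (hA V hP) (by positivity)))
    rw [Finset.sum_add_distrib, ← Finset.mul_sum, Finset.sum_sub_distrib, Finset.sum_const,
      Finset.sum_const, nsmul_eq_mul, nsmul_eq_mul, hκ, show 8 * a = √32 + 96 * b by linarith]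
    field_simp
    ring
  have lim := ENNReal.Tendsto.const_mul (a := ENNReal.ofReal (Wv l / √32)) (ratio_tendsto 4)
    (Or.inl one_ne_zero)
  rw [mul_one] at lim
  refine le_trans (limsup_le_limsup ?_) lim.limsup_eq.le
  filter_upwards [eventually_gt_atTop 0] with R hR
  refine ENNReal.div_le_of_le_mul ((key R hR).trans (le_of_eq ?_))
  rw [ball_ratio R 4 hR (by linarith), mul_assoc]

end Pool.Agent.Lib.MP_f3b2fd_co.KC
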